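import Pool.Agent.helper71.SB.Scale

set_option autoImplicit false

open Filter Topology Pool.Agent.helper68.Poly

/-- Let `α` be the growth constant of the numbers `b n` of fixed polyominoes with `n` cells. For
all `n ≥ 1` and `J ≥ 0` there is a size `k` with `n ≤ k ≤ n + 2 (2/3)^J n` and
`b k ≥ α ^ k / (2 ^ 46 n ^ 8 (72 n ^ 3) ^ J)`. -/
theorem Pool.Agent.Results.MP_d35578_co.EveryWindow.result
    (α : ℝ) (hα : Tendsto (fun n : ℕ => polyCount n ^ ((1 : ℝ) / n)) atTop (𝓝 α))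
    (n J : ℕ) (hn : 1 ≤ n) :
    ∃ k : ℕ, n ≤ k ∧ (k : ℝ) ≤ n + 2 * (2 / 3) ^ J * n ∧
      α ^ k / (2 ^ 46 * (n : ℝ) ^ 8 * (72 * (n : ℝ) ^ 3) ^ J) ≤ polyCount k := by
  rw [polyCount_eq] at hα ⊢
  obtain ⟨k, h1, h2, h3⟩ := Pool.Agent.helper71.SB.main hα hn J
  obtain ⟨hα0, -⟩ := window_lower hα (r := 1) le_rfl
  have hn0 : (1 : ℝ) ≤ n := by exact_mod_cast hn
  refine ⟨k, h1, ?_, ?_⟩
  · have h4 : (3 : ℝ) ^ J * (k - n) ≤ 2 ^ J * (2 * n) := by
      have h5 : ((k - n : ℕ) : ℝ) = k - n := by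
        rw [Nat.cast_sub h1]
      rw [← h5]
      exact_mod_cast h2
    have h6 : (0 : ℝ) < 3 ^ J := by positivity
    have h7 : (3 : ℝ) ^ J * (k - n) ≤ 3 ^ J * (2 * (2 / 3) ^ J * n) := by
      refine h4.trans (le_of_eq ?_)
      rw [div_pow]
      field_simp
    have h8 := le_of_mul_le_mul_left h7 h6
    linarith
  · unfold Pool.Agent.helper71.SB.rho at h3
    have hp : 0 < α ^ k := by positivity
    rw [le_div_iff₀ hp] at h3
    rw [div_eq_mul_one_div, mul_comm]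
    exact h3
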