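import Pool.Agent.helper68.Poly.Stmt

set_option autoImplicit false

open Filter Topology Pool.Agent.helper68.Poly

/-- If the number `b n` of fixed polyominoes with `n` cells is asymptotic to `A α ^ n n ^ θ`, then
`θ ≥ -1 - ν` for every `ν ≥ 1`, and for every real `ν` such that, for infinitely many `n`, at least
a fixed positive proportion of the polyominoes with `n` cells have diameter at most `n ^ ν`. -/
theorem Pool.Agent.Results.MP_d35578_co.ExponentLower.result
    (A α θ ν : ℝ) (hA : 0 < A)
    (h : Asymptotics.IsEquivalent atTop polyCount (fun n : ℕ => A * α ^ n * (n : ℝ) ^ θ))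
    (hν : 1 ≤ ν ∨ ∃ c : ℝ, 0 < c ∧
      ∃ᶠ n : ℕ in atTop, c * polyCount n ≤ polyDiam n ((n : ℝ) ^ ν)) :
    -1 - ν ≤ θ := by
  rw [polyCount_eq] at h
  rcases hν with hν | ⟨c, hc, hν⟩
  · have := exponent_two hA h
    linarith
  · refine exponent_lower hA h ⟨c, hc, hν.mono fun n hn => ?_⟩
    rw [polyCount_eq, polyDiam_eq (by positivity)] at hn
    exact hn
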