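import Pool.Agent.helper68.Poly.Stmt

set_option autoImplicit false

open Filter Topology Pool.Agent.helper68.Poly

/-- Let `α` be the growth constant of the numbers `b n` of fixed polyominoes with `n` cells. Then
the sum of `n b(n) / α ^ n` over `r ≤ n ≤ 128 r ^ 2` is at least `1 / 256`, for every `r ≥ 1`. -/
theorem Pool.Agent.Results.MP_d35578_co.WindowBound.result
    (α : ℝ) (hα : Tendsto (fun n : ℕ => polyCount n ^ ((1 : ℝ) / n)) atTop (𝓝 α))
    (r : ℕ) (hr : 1 ≤ r) :
    1 / 256 ≤ ∑ n ∈ Finset.Icc r (128 * r ^ 2), (n : ℝ) * polyCount n / α ^ n := by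
  rw [polyCount_eq] at hα ⊢
  refine (window_lower hα hr).2.trans (le_of_eq (Finset.sum_congr rfl fun n hn => ?_))
  rw [n_mul_B (hr.trans (Finset.mem_Icc.mp hn).1)]
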